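import Mathlib
import Pool.Agent.Q14.Kos

set_option autoImplicit false

/-!
Betti numbers of the powers of a monomial ideal over all prime fields.

The Koszul homology over `ℤ` of the Rees algebra of `I` is finitely generated over the Rees algebra,
so its `ℤ`-torsion is killed by one integer `N`. For the primes `p` not dividing `N` the homology of
the Koszul complexes of all powers `I ^ h` over `ℤ` has no `p`-torsion, and therefore the Betti numbers of
`I ^ h` over `𝔽_p` are the ranks of the homology over `ℤ`, for all `h` at once.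
-/

namespace Pool.Agent.Results.MP_f65b1b_al.AllPrimes

open Finset MvPolynomial

/-! ### Definitions of the problem -/

section Defs

variable {n : ℕ} {K : Type} [CommRing K]

/-- The Koszul differential of `x_1,…,x_n`: a chain is a function `f` assigning to every finite
set `T` of variables the coefficient `f T` of the basis element `e_T`. -/
noncomputable def koszulD (f : Finset (Fin n) → MvPolynomial (Fin n) K) (T : Finset (Fin n)) :
    MvPolynomial (Fin n) K :=
  ∑ j ∈ Tᶜ, (-1) ^ (T.filter (· < j)).card * (X j * f (insert j T))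

lemma koszulD_eq (f : Finset (Fin n) → MvPolynomial (Fin n) K) :
    koszulD f = Pool.Agent.Q14.Kos.kd (X : Fin n → MvPolynomial (Fin n) K) f := by
  funext T
  rw [koszulD, Pool.Agent.Q14.Kos.kd_apply]
  refine Finset.sum_congr rfl fun j _ => ?_
  rw [smul_eq_mul, mul_assoc]
  rfl

/-- The cycles of degree `i` of the Koszul complex of the ideal `J`. -/
noncomputable def cycles (J : Ideal (MvPolynomial (Fin n) K)) (i : ℕ) :
    Submodule K (Finset (Fin n) → MvPolynomial (Fin n) K) where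
  carrier := {f | (∀ T, f T ∈ J) ∧ (∀ T, T.card ≠ i → f T = 0) ∧ ∀ T, koszulD f T = 0}
  add_mem' {f g} hf hg := by
    refine ⟨fun T => J.add_mem (hf.1 T) (hg.1 T),
      fun T hT => by rw [Pi.add_apply, hf.2.1 T hT, hg.2.1 T hT, add_zero], fun T => ?_⟩
    have h1 := hf.2.2 T
    have h2 := hg.2.2 T
    rw [koszulD_eq] at h1 h2 ⊢
    rw [map_add, Pi.add_apply, h1, h2, add_zero]
  zero_mem' := by
    refine ⟨fun _ => J.zero_mem, fun _ _ => rfl, fun T => ?_⟩
    rw [koszulD_eq, map_zero]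
    rfl
  smul_mem' c f hf := by
    have hc : c • f = (C c : MvPolynomial (Fin n) K) • f := by
      funext T
      rw [Pi.smul_apply, Pi.smul_apply, smul_eq_mul, ← smul_eq_C_mul]
    rw [hc]
    refine ⟨fun T => J.mul_mem_left _ (hf.1 T),
      fun T hT => by rw [Pi.smul_apply, hf.2.1 T hT, smul_zero], fun T => ?_⟩
    have h1 := hf.2.2 T
    rw [koszulD_eq] at h1 ⊢
    rw [map_smul, Pi.smul_apply, h1, smul_zero]

/-- The boundaries of degree `i` of the Koszul complex of the ideal `J`. -/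
noncomputable def boundaries (J : Ideal (MvPolynomial (Fin n) K)) (i : ℕ) :
    Submodule K (Finset (Fin n) → MvPolynomial (Fin n) K) where
  carrier := {f | ∃ g : Finset (Fin n) → MvPolynomial (Fin n) K, (∀ T, g T ∈ J) ∧
    (∀ T, T.card ≠ i + 1 → g T = 0) ∧ ∀ T, koszulD g T = f T}
  add_mem' := by
    rintro f f' ⟨g, h1, h2, h3⟩ ⟨g', h1', h2', h3'⟩
    refine ⟨g + g', fun T => J.add_mem (h1 T) (h1' T),
      fun T hT => by rw [Pi.add_apply, h2 T hT, h2' T hT, add_zero], fun T => ?_⟩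
    rw [koszulD_eq] at h3 h3' ⊢
    rw [map_add, Pi.add_apply, h3, h3', Pi.add_apply]
  zero_mem' := by
    refine ⟨0, fun _ => J.zero_mem, fun _ _ => rfl, fun T => ?_⟩
    rw [koszulD_eq, map_zero]
  smul_mem' := by
    rintro c f ⟨g, h1, h2, h3⟩
    have hc : ∀ f : Finset (Fin n) → MvPolynomial (Fin n) K,
        c • f = (C c : MvPolynomial (Fin n) K) • f := by
      intro f
      funext T
      rw [Pi.smul_apply, Pi.smul_apply, smul_eq_mul, ← smul_eq_C_mul]
    refine ⟨c • g, ?_, ?_, ?_⟩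
    · intro T
      rw [hc]
      exact J.mul_mem_left _ (h1 T)
    · intro T hT
      rw [Pi.smul_apply, h2 T hT, smul_zero]
    · intro T
      rw [koszulD_eq] at h3 ⊢
      rw [hc, hc, map_smul, Pi.smul_apply, Pi.smul_apply, h3]

/-- The Betti number `β_i(J) = dim_K Tor_i(J, K)`, computed by the Koszul complex. -/
noncomputable def betti (J : Ideal (MvPolynomial (Fin n) K)) (i : ℕ) : ℕ :=
  Module.finrank K (cycles J i ⧸ (boundaries J i).comap (cycles J i).subtype)

variable (K) in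
/-- The ideal generated over `K` by the monomials with exponents in `ms`. -/
noncomputable def monIdeal (ms : Finset (Fin n →₀ ℕ)) : Ideal (MvPolynomial (Fin n) K) :=
  Ideal.span ((fun s => monomial s (1 : K)) '' (ms : Set (Fin n →₀ ℕ)))

end Defs

open Pool.Agent.Q14.Kos

/-! ### Monomial ideals over `ℤ` -/

section Mon

variable {n : ℕ}

lemma pow_mon {K : Type} [CommRing K] (ms : Finset (Fin n →₀ ℕ)) (h : ℕ) :
    ∃ E : Set (Fin n →₀ ℕ), monIdeal K ms ^ h = Ideal.span ((fun s => monomial s (1 : K)) '' E) := by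
  induction h with
  | zero =>
    refine ⟨{0}, ?_⟩
    rw [pow_zero, Set.image_singleton, Ideal.one_eq_top]
    refine (Ideal.eq_top_of_isUnit_mem _ (x := monomial (0 : Fin n →₀ ℕ) (1 : K))
      (Ideal.subset_span (Set.mem_singleton _)) ?_).symm
    rw [monomial_zero', C_1]
    exact isUnit_one
  | succ h ih =>
    obtain ⟨E, hE⟩ := ih
    refine ⟨{s | ∃ a ∈ E, ∃ b ∈ ms, s = a + b}, ?_⟩
    rw [pow_succ, hE, monIdeal, Ideal.span_mul_span']
    congr 1
    ext f
    rw [Set.mem_mul]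
    constructor
    · rintro ⟨_, ⟨a, ha, rfl⟩, _, ⟨b, hb, rfl⟩, rfl⟩
      exact ⟨a + b, ⟨a, ha, b, hb, rfl⟩, by simp [monomial_mul]⟩
    · rintro ⟨_, ⟨a, ha, b, hb, rfl⟩, rfl⟩
      exact ⟨_, ⟨a, ha, rfl⟩, _, ⟨b, hb, rfl⟩, by simp [monomial_mul]⟩

lemma saturated (ms : Finset (Fin n →₀ ℕ)) (h : ℕ) {c : ℤ} (hc : c ≠ 0)
    {g : MvPolynomial (Fin n) ℤ} (hg : (C c : MvPolynomial (Fin n) ℤ) * g ∈ monIdeal ℤ ms ^ h) :
    g ∈ monIdeal ℤ ms ^ h := by
  obtain ⟨E, hE⟩ := pow_mon (K := ℤ) ms h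
  rw [hE] at hg ⊢
  rw [mem_ideal_span_monomial_image] at hg ⊢
  intro s hs
  apply hg
  rw [mem_support_iff] at hs ⊢
  rw [coeff_C_mul]
  exact mul_ne_zero hc hs

lemma map_monIdeal (p : ℕ) (ms : Finset (Fin n →₀ ℕ)) (h : ℕ) :
    (monIdeal ℤ ms ^ h).map (MvPolynomial.map (Int.castRingHom (ZMod p))) =
      monIdeal (ZMod p) ms ^ h := by
  rw [Ideal.map_pow, monIdeal, Ideal.map_span, monIdeal, Set.image_image]
  simp

end Mon

/-! ### Homology over `ℤ` -/

section Homology

variable {n : ℕ}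

/-- cycles over `ℤ` -/
noncomputable def ZZ (J : Ideal (MvPolynomial (Fin n) ℤ)) (i : ℕ) :
    Submodule ℤ (Finset (Fin n) → MvPolynomial (Fin n) ℤ) :=
  (ZK (X : Fin n → MvPolynomial (Fin n) ℤ) J i).restrictScalars ℤ

/-- boundaries over `ℤ` -/
noncomputable def BZ (J : Ideal (MvPolynomial (Fin n) ℤ)) (i : ℕ) :
    Submodule ℤ (Finset (Fin n) → MvPolynomial (Fin n) ℤ) :=
  (BK (X : Fin n → MvPolynomial (Fin n) ℤ) J i).restrictScalars ℤ

/-- homology over `ℤ` -/
abbrev HZ (J : Ideal (MvPolynomial (Fin n) ℤ)) (i : ℕ) : Type :=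
  ZZ J i ⧸ (BZ J i).comap (ZZ J i).subtype

lemma sub_const_mem {K : Type} [CommRing K] (r : MvPolynomial (Fin n) K) :
    r - C (constantCoeff r) ∈ Ideal.span (Set.range (X : Fin n → MvPolynomial (Fin n) K)) := by
  rw [← Set.image_univ, mem_ideal_span_X_image]
  intro m hm
  by_contra hcon
  push Not at hcon
  have h0 : m = 0 := by
    ext v
    exact hcon v (Set.mem_univ v)
  rw [mem_support_iff, h0, coeff_sub, coeff_C, if_pos rfl, constantCoeff_eq, sub_self] at hm
  exact hm rfl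

instance finite_HZ (J : Ideal (MvPolynomial (Fin n) ℤ)) (i : ℕ) : Module.Finite ℤ (HZ J i) := by
  classical
  obtain ⟨S, hS⟩ : (ZK (X : Fin n → MvPolynomial (Fin n) ℤ) J i).FG := IsNoetherian.noetherian _
  -- every cycle is an integral combination of elements of `S` up to a boundary
  have key : ∀ F ∈ ZK (X : Fin n → MvPolynomial (Fin n) ℤ) J i,
      F ∈ Submodule.span ℤ (S : Set (Finset (Fin n) → MvPolynomial (Fin n) ℤ)) ⊔ BZ J i := by
    intro F hF
    rw [← hS] at hF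
    refine Submodule.span_induction (p := fun F _ => F ∈ Submodule.span ℤ
      (S : Set (Finset (Fin n) → MvPolynomial (Fin n) ℤ)) ⊔ BZ J i) ?_ ?_ ?_ ?_ hF
    · intro F hF
      exact Submodule.mem_sup_left (Submodule.subset_span hF)
    · exact Submodule.zero_mem _
    · intro F G _ _ hF hG
      exact Submodule.add_mem _ hF hG
    · intro r F hFs hF
      rw [hS] at hFs
      have h1 : r • F = constantCoeff r • F + (r - C (constantCoeff r)) • F := by
        have : constantCoeff r • F = (C (constantCoeff r) : MvPolynomial (Fin n) ℤ) • F := by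
          funext T
          rw [Pi.smul_apply, Pi.smul_apply, smul_eq_mul, ← smul_eq_C_mul]
        rw [this, ← add_smul, add_sub_cancel]
      rw [h1]
      refine Submodule.add_mem _ (Submodule.smul_mem _ _ hF) (Submodule.mem_sup_right ?_)
      change (r - C (constantCoeff r)) • F ∈ BK (X : Fin n → MvPolynomial (Fin n) ℤ) J i
      have h2 := sub_const_mem r
      refine Submodule.span_induction
        (p := fun x _ => x • F ∈ BK (X : Fin n → MvPolynomial (Fin n) ℤ) J i) ?_ ?_ ?_ ?_ h2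
      · rintro _ ⟨v, rfl⟩
        exact smul_ZK_le _ _ _ v hFs
      · rw [zero_smul]
        exact Submodule.zero_mem _
      · intro x y _ _ hx hy
        rw [add_smul]
        exact Submodule.add_mem _ hx hy
      · intro a x _ hx
        rw [smul_eq_mul, mul_smul]
        exact Submodule.smul_mem _ _ hx
  have hSZ : ∀ F ∈ S, F ∈ ZZ J i := by
    intro F hF
    change F ∈ ZK (X : Fin n → MvPolynomial (Fin n) ℤ) J i
    rw [← hS]
    exact Submodule.subset_span hF
  refine ⟨⟨S.attach.image (fun F => Submodule.Quotient.mk ⟨F.1, hSZ F.1 F.2⟩), ?_⟩⟩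
  rw [eq_top_iff]
  intro h _
  obtain ⟨⟨F, hF⟩, rfl⟩ := Submodule.Quotient.mk_surjective _ h
  obtain ⟨F1, hF1, F2, hF2, hFF⟩ := Submodule.mem_sup.1 (key F hF)
  have hF1Z : F1 ∈ ZZ J i := (Submodule.span_le.2 hSZ) hF1
  have h3 : (Submodule.Quotient.mk ⟨F, hF⟩ : HZ J i) = Submodule.Quotient.mk ⟨F1, hF1Z⟩ := by
    rw [Submodule.Quotient.eq]
    change F - F1 ∈ BZ J i
    rw [← hFF, add_sub_cancel_left]
    exact hF2
  rw [h3]
  -- induction on the span
  have h4 : ∀ G, ∀ hG : G ∈ Submodule.span ℤ (S : Set (Finset (Fin n) → MvPolynomial (Fin n) ℤ)),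
      ∀ hGZ : G ∈ ZZ J i, (Submodule.Quotient.mk ⟨G, hGZ⟩ : HZ J i) ∈ Submodule.span ℤ
        ((S.attach.image (fun F => (Submodule.Quotient.mk ⟨F.1, hSZ F.1 F.2⟩ : HZ J i)) :
          Finset (HZ J i)) : Set (HZ J i)) := by
    intro G hG
    refine Submodule.span_induction (p := fun G _ => ∀ hGZ : G ∈ ZZ J i,
      (Submodule.Quotient.mk ⟨G, hGZ⟩ : HZ J i) ∈ Submodule.span ℤ
        ((S.attach.image (fun F => (Submodule.Quotient.mk ⟨F.1, hSZ F.1 F.2⟩ : HZ J i)) :
          Finset (HZ J i)) : Set (HZ J i))) ?_ ?_ ?_ ?_ hG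
    · intro G hG hGZ
      apply Submodule.subset_span
      rw [Finset.mem_coe, Finset.mem_image]
      exact ⟨⟨G, hG⟩, Finset.mem_attach _ _, rfl⟩
    · intro h0
      have : (Submodule.Quotient.mk ⟨0, h0⟩ : HZ J i) = 0 := Submodule.Quotient.mk_zero _
      rw [this]
      exact Submodule.zero_mem _
    · intro x y hx hy ihx ihy hxy
      have hx' : x ∈ ZZ J i := (Submodule.span_le.2 hSZ) hx
      have hy' : y ∈ ZZ J i := (Submodule.span_le.2 hSZ) hy
      have : (Submodule.Quotient.mk ⟨x + y, hxy⟩ : HZ J i) =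
          Submodule.Quotient.mk ⟨x, hx'⟩ + Submodule.Quotient.mk ⟨y, hy'⟩ := rfl
      rw [this]
      exact Submodule.add_mem _ (ihx hx') (ihy hy')
    · intro a x hx ihx hax
      have hx' : x ∈ ZZ J i := (Submodule.span_le.2 hSZ) hx
      have : (Submodule.Quotient.mk ⟨a • x, hax⟩ : HZ J i) = a • Submodule.Quotient.mk ⟨x, hx'⟩ := rfl
      rw [this]
      exact Submodule.smul_mem _ _ (ihx hx')
  exact h4 F1 hF1 hF1Z

/-- no `p`-torsion in the homology over `ℤ` -/
def NT (p : ℕ) (J : Ideal (MvPolynomial (Fin n) ℤ)) (i : ℕ) : Prop :=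
  ∀ F ∈ ZK (X : Fin n → MvPolynomial (Fin n) ℤ) J i,
    (p : ℤ) • F ∈ BK (X : Fin n → MvPolynomial (Fin n) ℤ) J i →
    F ∈ BK (X : Fin n → MvPolynomial (Fin n) ℤ) J i

lemma kd_red (p : ℕ) (F : Finset (Fin n) → MvPolynomial (Fin n) ℤ) :
    kd (X : Fin n → MvPolynomial (Fin n) (ZMod p))
      (fun T => MvPolynomial.map (Int.castRingHom (ZMod p)) (F T)) =
    fun T => MvPolynomial.map (Int.castRingHom (ZMod p)) (kd (X : Fin n → MvPolynomial (Fin n) ℤ) F T) := by
  funext T
  have h := kd_map (MvPolynomial.map (Int.castRingHom (ZMod p)) :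
    MvPolynomial (Fin n) ℤ →+* MvPolynomial (Fin n) (ZMod p))
    (MvPolynomial.map (Int.castRingHom (ZMod p)) :
      MvPolynomial (Fin n) ℤ →+* MvPolynomial (Fin n) (ZMod p)).toAddMonoidHom
    (fun r m => map_mul (MvPolynomial.map (Int.castRingHom (ZMod p)) :
      MvPolynomial (Fin n) ℤ →+* MvPolynomial (Fin n) (ZMod p)) r m) X F T
  simp only [map_X] at h
  exact h

lemma exists_lift (p : ℕ) (J : Ideal (MvPolynomial (Fin n) ℤ)) (i : ℕ)
    (f : Finset (Fin n) → MvPolynomial (Fin n) (ZMod p))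
    (hf : ∀ T, f T ∈ J.map (MvPolynomial.map (Int.castRingHom (ZMod p))))
    (hc : ∀ T, T.card ≠ i → f T = 0) :
    ∃ F : Finset (Fin n) → MvPolynomial (Fin n) ℤ, (∀ T, F T ∈ J) ∧ (∀ T, T.card ≠ i → F T = 0) ∧
      ∀ T, MvPolynomial.map (Int.castRingHom (ZMod p)) (F T) = f T := by
  classical
  have hsurj : Function.Surjective (MvPolynomial.map (Int.castRingHom (ZMod p)) :
      MvPolynomial (Fin n) ℤ → MvPolynomial (Fin n) (ZMod p)) :=
    MvPolynomial.map_surjective _ (ZMod.intCast_surjective)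
  have h1 : ∀ T, ∃ x ∈ J, MvPolynomial.map (Int.castRingHom (ZMod p)) x = f T := fun T =>
    (Ideal.mem_map_iff_of_surjective _ hsurj).1 (hf T)
  choose G hG1 hG2 using h1
  refine ⟨fun T => if T.card = i then G T else 0, fun T => ?_, fun T hT => if_neg hT, fun T => ?_⟩
  · dsimp only
    split_ifs
    · exact hG1 T
    · exact J.zero_mem
  · dsimp only
    split_ifs with h
    · exact hG2 T
    · rw [map_zero, hc T h]

lemma exists_div (p : ℕ) (hp : p ≠ 0) (J : Ideal (MvPolynomial (Fin n) ℤ))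
    (hsat : ∀ g : MvPolynomial (Fin n) ℤ, C (p : ℤ) * g ∈ J → g ∈ J) (i : ℕ)
    (F : Finset (Fin n) → MvPolynomial (Fin n) ℤ) (hF : ∀ T, F T ∈ J)
    (hc : ∀ T, T.card ≠ i → F T = 0)
    (hred : ∀ T, MvPolynomial.map (Int.castRingHom (ZMod p)) (F T) = 0) :
    ∃ W : Finset (Fin n) → MvPolynomial (Fin n) ℤ, (∀ T, W T ∈ J) ∧
      (∀ T, T.card ≠ i → W T = 0) ∧ F = (p : ℤ) • W := by
  have h1 : ∀ T, ∃ w, F T = C (p : ℤ) * w := fun T => (C_dvd_iff_zmod p (F T)).2 (hred T)
  choose W hW using h1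
  have hp0 : (C (p : ℤ) : MvPolynomial (Fin n) ℤ) ≠ 0 := by
    rw [Ne, C_eq_zero]
    exact_mod_cast hp
  refine ⟨W, fun T => hsat _ (by rw [← hW]; exact hF T), fun T hT => ?_, ?_⟩
  · have h2 := hW T
    rw [hc T hT] at h2
    exact (mul_eq_zero.1 h2.symm).resolve_left hp0
  · funext T
    rw [Pi.smul_apply, hW T, smul_eq_C_mul]

lemma smul_C (p : ℤ) (F : Finset (Fin n) → MvPolynomial (Fin n) ℤ) :
    p • F = (C p : MvPolynomial (Fin n) ℤ) • F := by
  funext T
  rw [Pi.smul_apply, Pi.smul_apply, smul_eq_mul, ← smul_eq_C_mul]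

lemma smul_cancel {p : ℕ} (hp : p ≠ 0) {F : Finset (Fin n) → MvPolynomial (Fin n) ℤ}
    (h : (p : ℤ) • F = 0) : F = 0 := by
  funext T
  have h1 := congrFun h T
  rw [Pi.smul_apply, smul_eq_C_mul] at h1
  have hp0 : (C (p : ℤ) : MvPolynomial (Fin n) ℤ) ≠ 0 := by
    rw [Ne, C_eq_zero]
    exact_mod_cast hp
  exact (mul_eq_zero.1 h1).resolve_left hp0

/-- The main comparison: without `p`-torsion the Betti number over `𝔽_p` is a rank over `ℤ`. -/
theorem betti_eq (p : ℕ) [hp : Fact p.Prime] (J : Ideal (MvPolynomial (Fin n) ℤ))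
    (hsat : ∀ g : MvPolynomial (Fin n) ℤ, C (p : ℤ) * g ∈ J → g ∈ J) (i : ℕ)
    (hNT : NT p J i) (hNT' : ∀ i', i = i' + 1 → NT p J i') :
    betti (J.map (MvPolynomial.map (Int.castRingHom (ZMod p)))) i =
      Module.finrank ℤ (HZ J i ⧸ Submodule.torsion ℤ (HZ J i)) := by
  set π : MvPolynomial (Fin n) ℤ →+* MvPolynomial (Fin n) (ZMod p) :=
    MvPolynomial.map (Int.castRingHom (ZMod p)) with hπ
  have hp0 : p ≠ 0 := hp.out.ne_zero
  have hcyc : ∀ f, f ∈ cycles (J.map π) i ↔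
      (∀ T, f T ∈ J.map π) ∧ (∀ T, T.card ≠ i → f T = 0) ∧ kd (X : Fin n → MvPolynomial (Fin n) (ZMod p)) f = 0 := by
    intro f
    constructor
    · rintro ⟨h1, h2, h3⟩
      refine ⟨h1, h2, ?_⟩
      rw [← koszulD_eq]
      funext T
      exact h3 T
    · rintro ⟨h1, h2, h3⟩
      refine ⟨h1, h2, fun T => ?_⟩
      rw [koszulD_eq, h3]
      rfl
  have hbd : ∀ f, f ∈ boundaries (J.map π) i ↔ ∃ g : Finset (Fin n) → MvPolynomial (Fin n) (ZMod p),
      (∀ T, g T ∈ J.map π) ∧ (∀ T, T.card ≠ i + 1 → g T = 0) ∧ kd (X : Fin n → MvPolynomial (Fin n) (ZMod p)) g = f := by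
    intro f
    constructor
    · rintro ⟨g, h1, h2, h3⟩
      refine ⟨g, h1, h2, ?_⟩
      rw [← koszulD_eq]
      funext T
      exact h3 T
    · rintro ⟨g, h1, h2, h3⟩
      refine ⟨g, h1, h2, fun T => ?_⟩
      rw [koszulD_eq, h3]
  have hmem : ∀ F ∈ ZZ J i, (fun T => π (F T)) ∈ cycles (J.map π) i := by
    rintro F ⟨h1, h2, h3⟩
    rw [hcyc]
    refine ⟨fun T => Ideal.mem_map_of_mem π (h1 T), fun T hT => by rw [h2 T hT, map_zero], ?_⟩
    rw [kd_red, h3]
    funext T
    exact map_zero _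
  let φ0 : ZZ J i →ₗ[ℤ] (cycles (J.map π) i ⧸ (boundaries (J.map π) i).comap
      (cycles (J.map π) i).subtype) :=
    (AddMonoidHom.mk' (fun F => Submodule.Quotient.mk ⟨fun T => π (F.1 T), hmem F.1 F.2⟩) (by
      intro F G
      rw [← Submodule.Quotient.mk_add]
      congr 1
      apply Subtype.ext
      funext T
      exact map_add π _ _)).toIntLinearMap
  have hφ0 : ∀ F : ZZ J i, φ0 F = Submodule.Quotient.mk ⟨fun T => π (F.1 T), hmem F.1 F.2⟩ :=
    fun F => rfl
  have hφ0z : ∀ F : ZZ J i, φ0 F = 0 ↔ (fun T => π (F.1 T)) ∈ boundaries (J.map π) i := by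
    intro F
    rw [hφ0, Submodule.Quotient.mk_eq_zero]
    rfl
  have hB : (BZ J i).comap (ZZ J i).subtype ≤ LinearMap.ker φ0 := by
    intro F hF
    rw [LinearMap.mem_ker, hφ0z, hbd]
    obtain ⟨G, h1, h2, h3⟩ := hF
    refine ⟨fun T => π (G T), fun T => Ideal.mem_map_of_mem π (h1 T),
      fun T hT => by change π (G T) = 0; rw [h2 T hT, map_zero], ?_⟩
    rw [kd_red, h3]
    rfl
  let φ : HZ J i →ₗ[ℤ] _ := ((BZ J i).comap (ZZ J i).subtype).liftQ φ0 hB
  have hφ : ∀ F : ZZ J i, φ (Submodule.Quotient.mk F) = φ0 F := fun F => rfl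
  refine finrank_reduction p (H := HZ J i) ?_ φ.toAddMonoidHom ?_ ?_
  · intro h hh
    obtain ⟨⟨F, hF⟩, rfl⟩ := Submodule.Quotient.mk_surjective _ h
    rw [← Submodule.Quotient.mk_smul, Submodule.Quotient.mk_eq_zero] at hh
    rw [Submodule.Quotient.mk_eq_zero]
    exact hNT F hF hh
  · intro v
    obtain ⟨⟨f, hf⟩, rfl⟩ := Submodule.Quotient.mk_surjective _ v
    obtain ⟨h1, h2, h3⟩ := (hcyc f).1 hf
    obtain ⟨z, hz1, hz2, hz3⟩ := exists_lift p J i f h1 h2
    -- correct the lift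
    obtain ⟨u, hu1, hu2, hu3⟩ : ∃ u : Finset (Fin n) → MvPolynomial (Fin n) ℤ, (∀ T, u T ∈ J) ∧
        (∀ T, T.card ≠ i → u T = 0) ∧ kd (X : Fin n → MvPolynomial (Fin n) ℤ) z = (p : ℤ) • kd (X : Fin n → MvPolynomial (Fin n) ℤ) u := by
      have hred : ∀ T, π (kd (X : Fin n → MvPolynomial (Fin n) ℤ) z T) = 0 := by
        intro T
        have h4 := congrFun (kd_red p z) T
        have h5 : (fun T => MvPolynomial.map (Int.castRingHom (ZMod p)) (z T)) = f := funext hz3
        rw [h5, h3] at h4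
        exact h4.symm
      rcases i with _ | i
      · refine ⟨0, fun _ => J.zero_mem, fun _ _ => rfl, ?_⟩
        rw [map_zero, smul_zero]
        funext T
        rw [kd_apply]
        refine Finset.sum_eq_zero fun j hj => ?_
        rw [hz2, smul_zero]
        rw [card_insert_of_notMem (by simpa using hj)]
        omega
      · obtain ⟨w, hw1, hw2, hw3⟩ := exists_div p hp0 J hsat i (kd (X : Fin n → MvPolynomial (Fin n) ℤ) z) (fun T => kd_mem J X hz1 T)
          (fun T hT => kd_card X hz2 T hT) hred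
        have hw4 : kd (X : Fin n → MvPolynomial (Fin n) ℤ) w = 0 := by
          apply smul_cancel hp0
          rw [smul_C, ← map_smul, ← smul_C, ← hw3, kd_kd]
        obtain ⟨u, hu1, hu2, hu3⟩ := hNT' i rfl w ⟨hw1, hw2, hw4⟩ (by
          rw [← hw3]
          exact ⟨z, hz1, hz2, rfl⟩)
        exact ⟨u, hu1, hu2, by rw [hu3, hw3]⟩
    have hZ : z - (p : ℤ) • u ∈ ZZ J i := by
      refine ⟨fun T => J.sub_mem (hz1 T) ?_, fun T hT => ?_, ?_⟩
      · rw [smul_C]
        exact J.mul_mem_left _ (hu1 T)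
      · rw [Pi.sub_apply, Pi.smul_apply, hz2 T hT, hu2 T hT, smul_zero, sub_zero]
      · rw [map_sub, hu3, smul_C, smul_C, map_smul, sub_self]
    refine ⟨Submodule.Quotient.mk ⟨z - (p : ℤ) • u, hZ⟩, ?_⟩
    change φ0 ⟨z - (p : ℤ) • u, hZ⟩ = _
    rw [hφ0]
    congr 1
    apply Subtype.ext
    funext T
    change π (z T - (p : ℤ) • u T) = f T
    rw [map_sub, smul_eq_C_mul, map_mul, hπ, map_C, hz3]
    simp
  · intro h
    obtain ⟨⟨F, hF⟩, rfl⟩ := Submodule.Quotient.mk_surjective _ h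
    change φ0 ⟨F, hF⟩ = 0 ↔ _
    rw [hφ0z]
    constructor
    · intro h1
      obtain ⟨g, hg1, hg2, hg3⟩ := (hbd _).1 h1
      obtain ⟨u, hu1, hu2, hu3⟩ := exists_lift p J (i + 1) g hg1 hg2
      have hd1 : ∀ T, kd (X : Fin n → MvPolynomial (Fin n) ℤ) u T ∈ J := fun T => kd_mem J X hu1 T
      have hd2 : ∀ T, T.card ≠ i → kd (X : Fin n → MvPolynomial (Fin n) ℤ) u T = 0 := fun T hT => kd_card X hu2 T hT
      obtain ⟨v, hv1, hv2, hv3⟩ := exists_div p hp0 J hsat i (F - kd (X : Fin n → MvPolynomial (Fin n) ℤ) u)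
        (fun T => J.sub_mem (hF.1 T) (hd1 T))
        (fun T hT => by rw [Pi.sub_apply, hF.2.1 T hT, hd2 T hT, sub_zero]) (by
          intro T
          have h4 := congrFun (kd_red p u) T
          have h5 : (fun T => MvPolynomial.map (Int.castRingHom (ZMod p)) (u T)) = g := funext hu3
          rw [h5, hg3] at h4
          rw [Pi.sub_apply, map_sub, sub_eq_zero]
          exact h4)
      have hv4 : kd (X : Fin n → MvPolynomial (Fin n) ℤ) v = 0 := by
        apply smul_cancel hp0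
        rw [smul_C, ← map_smul, ← smul_C, ← hv3, map_sub, hF.2.2, kd_kd, sub_zero]
      refine ⟨Submodule.Quotient.mk ⟨v, ⟨hv1, hv2, hv4⟩⟩, ?_⟩
      rw [← Submodule.Quotient.mk_smul, Submodule.Quotient.eq]
      change F - (p : ℤ) • v ∈ BK X J i
      rw [← hv3, sub_sub_cancel]
      exact ⟨u, hu1, hu2, rfl⟩
    · rintro ⟨h', hh'⟩
      obtain ⟨⟨v, hv⟩, rfl⟩ := Submodule.Quotient.mk_surjective _ h'
      rw [← Submodule.Quotient.mk_smul, Submodule.Quotient.eq] at hh'
      obtain ⟨u, hu1, hu2, hu3⟩ := hh'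
      rw [hbd]
      refine ⟨fun T => π (u T), fun T => Ideal.mem_map_of_mem π (hu1 T),
        fun T hT => by change π (u T) = 0; rw [hu2 T hT, map_zero], ?_⟩
      rw [kd_red, hu3]
      funext T
      change π (F T - (p : ℤ) • v T) = π (F T)
      rw [map_sub, smul_eq_C_mul, map_mul, hπ, map_C]
      simp

end Homology

/-! ### The Rees algebra -/

section Rees

lemma uniform_bound {A M : Type*} [CommRing A] [AddCommGroup M] [Module A M] (T B : Submodule A M)
    (hT : T.FG) (h : ∀ F ∈ T, ∃ m : ℤ, m ≠ 0 ∧ m • F ∈ B) :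
    ∃ N : ℤ, N ≠ 0 ∧ ∀ F ∈ T, N • F ∈ B := by
  classical
  obtain ⟨S, hS⟩ := hT
  have hST : ∀ s ∈ S, s ∈ T := fun s hs => hS ▸ Submodule.subset_span hs
  choose! m hm0 hm using h
  refine ⟨∏ s ∈ S, m s, Finset.prod_ne_zero_iff.2 fun s hs => hm0 s (hST s hs), ?_⟩
  intro F hF
  rw [← hS] at hF
  refine Submodule.span_induction (p := fun F _ => (∏ s ∈ S, m s) • F ∈ B) ?_ ?_ ?_ ?_ hF
  · intro s hs
    rw [← Finset.mul_prod_erase S m hs, mul_comm, mul_smul]
    exact zsmul_mem (hm s (hST s hs)) _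
  · rw [smul_zero]
    exact B.zero_mem
  · intro x y _ _ hx hy
    rw [smul_add]
    exact B.add_mem hx hy
  · intro a x _ hx
    rw [smul_comm]
    exact B.smul_mem _ hx

variable {n : ℕ} (J : Ideal (MvPolynomial (Fin n) ℤ))

/-- the variables in the Rees algebra -/
noncomputable def aR (j : Fin n) : reesAlgebra J :=
  algebraMap (MvPolynomial (Fin n) ℤ) (reesAlgebra J) (X j)

lemma kd_aR (G : Finset (Fin n) → reesAlgebra J) (T : Finset (Fin n)) :
    kd (aR J) G T = kd (X : Fin n → MvPolynomial (Fin n) ℤ) G T :=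
  kd_map (algebraMap (MvPolynomial (Fin n) ℤ) (reesAlgebra J)) (AddMonoidHom.id _)
    (fun r m => Algebra.smul_def r m) X G T

lemma kd_coeff (G : Finset (Fin n) → reesAlgebra J) (h : ℕ) (T : Finset (Fin n)) :
    kd (X : Fin n → MvPolynomial (Fin n) ℤ) (fun T => (G T).val.coeff h) T =
      (kd (aR J) G T).val.coeff h := by
  rw [kd_aR]
  exact kd_map (RingHom.id _) ((Polynomial.lcoeff (MvPolynomial (Fin n) ℤ) h).comp
    (reesAlgebra J).val.toLinearMap).toAddMonoidHom (fun r m => by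
      simp) X G T

/-- the chain `F t ^ h` -/
noncomputable def sharp (h : ℕ) (F : Finset (Fin n) → MvPolynomial (Fin n) ℤ)
    (hF : ∀ T, F T ∈ J ^ h) (T : Finset (Fin n)) : reesAlgebra J :=
  ⟨Polynomial.monomial h (F T), reesAlgebra.monomial_mem.2 (hF T)⟩

lemma kd_sharp (h : ℕ) (F : Finset (Fin n) → MvPolynomial (Fin n) ℤ) (hF : ∀ T, F T ∈ J ^ h)
    (T : Finset (Fin n)) : (kd (aR J) (sharp J h F hF) T).val =
      Polynomial.monomial h (kd (X : Fin n → MvPolynomial (Fin n) ℤ) F T) := by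
  rw [kd_aR]
  have h1 := kd_map (RingHom.id (MvPolynomial (Fin n) ℤ))
    (reesAlgebra J).val.toLinearMap.toAddMonoidHom (fun r m => by simp) X (sharp J h F hF) T
  have h2 := kd_map (RingHom.id (MvPolynomial (Fin n) ℤ))
    (Polynomial.monomial h : MvPolynomial (Fin n) ℤ →ₗ[MvPolynomial (Fin n) ℤ] _).toAddMonoidHom
    (fun r m => (Polynomial.monomial h :
      MvPolynomial (Fin n) ℤ →ₗ[MvPolynomial (Fin n) ℤ] _).map_smul r m) X F T
  exact h1.symm.trans h2

/-- chains of the Rees algebra that are cycles and torsion modulo boundaries -/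
noncomputable def tors (i : ℕ) : Submodule (reesAlgebra J) (Finset (Fin n) → reesAlgebra J) where
  carrier := {F | ∃ m : ℤ, m ≠ 0 ∧ m • F ∈ BK (aR J) (⊤ : Submodule (reesAlgebra J) _) i}
  add_mem' := by
    rintro F G ⟨m, hm, h1⟩ ⟨m', hm', h2⟩
    refine ⟨m * m', mul_ne_zero hm hm', ?_⟩
    rw [smul_add, mul_comm m m', mul_smul, mul_comm m' m, mul_smul]
    exact Submodule.add_mem _ (zsmul_mem h1 _) (zsmul_mem h2 _)
  zero_mem' := ⟨1, one_ne_zero, by rw [smul_zero]; exact Submodule.zero_mem _⟩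
  smul_mem' := by
    rintro c F ⟨m, hm, h1⟩
    refine ⟨m, hm, ?_⟩
    rw [smul_comm]
    exact Submodule.smul_mem _ c h1

/-- One integer kills the torsion of the Koszul homology of all powers of `J`. -/
theorem exists_bound (i : ℕ) : ∃ N : ℤ, N ≠ 0 ∧ ∀ (h : ℕ)
    (F : Finset (Fin n) → MvPolynomial (Fin n) ℤ), (∀ T, F T ∈ J ^ h) → ∀ m : ℤ, m ≠ 0 →
    m • F ∈ BK (X : Fin n → MvPolynomial (Fin n) ℤ) (J ^ h) i →
    N • F ∈ BK (X : Fin n → MvPolynomial (Fin n) ℤ) (J ^ h) i := by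
  obtain ⟨N, hN, hNT⟩ := uniform_bound (tors J i) (BK (aR J) ⊤ i) (IsNoetherian.noetherian _)
    (fun F hF => hF)
  refine ⟨N, hN, fun h F hF m hm hmF => ?_⟩
  obtain ⟨G, hG1, hG2, hG3⟩ := hmF
  have h1 : sharp J h F hF ∈ tors J i := by
    refine ⟨m, hm, sharp J h G hG1, fun _ => Submodule.mem_top, ?_, ?_⟩
    · intro T hT
      apply Subtype.ext
      change Polynomial.monomial h (G T) = 0
      rw [hG2 T hT, map_zero]
    · funext T
      apply Subtype.ext
      rw [kd_sharp, hG3]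
      change Polynomial.monomial h (m • F T) = ((m • sharp J h F hF T : reesAlgebra J) :
        Polynomial (MvPolynomial (Fin n) ℤ))
      rw [map_zsmul]
      rfl
  obtain ⟨G', hG1', hG2', hG3'⟩ := hNT _ h1
  refine ⟨fun T => (G' T).val.coeff h, ?_, ?_, ?_⟩
  · intro T
    exact (mem_reesAlgebra_iff _ _).1 (G' T).2 h
  · intro T hT
    change (G' T).val.coeff h = 0
    rw [hG2' T hT]
    rfl
  · funext T
    rw [kd_coeff, hG3']
    change ((N • sharp J h F hF T : reesAlgebra J) : Polynomial (MvPolynomial (Fin n) ℤ)).coeff h =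
      N • F T
    have : ((N • sharp J h F hF T : reesAlgebra J) : Polynomial (MvPolynomial (Fin n) ℤ)) =
        N • Polynomial.monomial h (F T) := rfl
    rw [this, Polynomial.coeff_smul, Polynomial.coeff_monomial, if_pos rfl]

end Rees

/-! ### The result -/

/-- **Uniformity of the Betti numbers of powers over all primes.** For every monomial ideal `I` and
every `i` there is `N ≠ 0` such that the sequence `(β_i(I ^ h))_h` is the same over all fields `𝔽_p` with
`p` not dividing `N`; in particular only finitely many sequences occur. -/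
theorem result (n : ℕ) (ms : Finset (Fin n →₀ ℕ)) (i : ℕ) :
    (∃ (N : ℕ) (r : ℕ → ℕ), N ≠ 0 ∧ ∀ p : ℕ, p.Prime → ¬ p ∣ N → ∀ h : ℕ,
      betti (monIdeal (ZMod p) ms ^ h) i = r h) ∧
    {s : ℕ → ℕ | ∃ p : ℕ, p.Prime ∧
      s = fun h => betti (monIdeal (ZMod p) ms ^ (h + 1)) i}.Finite := by
  classical
  have hmain : ∃ (N : ℕ) (r : ℕ → ℕ), N ≠ 0 ∧ ∀ p : ℕ, p.Prime → ¬ p ∣ N → ∀ h : ℕ,
      betti (monIdeal (ZMod p) ms ^ h) i = r h := by
    obtain ⟨N, hN0, hN⟩ := exists_bound (monIdeal ℤ ms) i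
    obtain ⟨N', hN0', hN'⟩ := exists_bound (monIdeal ℤ ms) (i - 1)
    refine ⟨(N * N').natAbs, fun h => Module.finrank ℤ
      (HZ (monIdeal ℤ ms ^ h) i ⧸ Submodule.torsion ℤ (HZ (monIdeal ℤ ms ^ h) i)), ?_, ?_⟩
    · rw [Ne, Int.natAbs_eq_zero]
      exact mul_ne_zero hN0 hN0'
    · intro p hp hpN h
      have : Fact p.Prime := ⟨hp⟩
      have hp0 : (p : ℤ) ≠ 0 := by exact_mod_cast hp.ne_zero
      have hndvd : ∀ M : ℤ, M = N ∨ M = N' → ¬ (p : ℤ) ∣ M := by
        intro M hM hd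
        apply hpN
        rw [← Int.natCast_dvd]
        rcases hM with rfl | rfl
        · exact dvd_mul_of_dvd_left hd _
        · exact dvd_mul_of_dvd_right hd _
      have hNTgen : ∀ (i : ℕ) (M : ℤ), ¬ (p : ℤ) ∣ M → (∀ (h : ℕ)
          (F : Finset (Fin n) → MvPolynomial (Fin n) ℤ), (∀ T, F T ∈ monIdeal ℤ ms ^ h) →
          ∀ m : ℤ, m ≠ 0 → m • F ∈ BK (X : Fin n → MvPolynomial (Fin n) ℤ) (monIdeal ℤ ms ^ h) i →
          M • F ∈ BK (X : Fin n → MvPolynomial (Fin n) ℤ) (monIdeal ℤ ms ^ h) i) →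
          NT p (monIdeal ℤ ms ^ h) i := by
        intro i M hM hb F hF hpF
        have h1 := hb h F hF.1 p hp0 hpF
        have hcop : IsCoprime (p : ℤ) M :=
          (Prime.coprime_iff_not_dvd (Nat.prime_iff_prime_int.1 hp)).2 hM
        obtain ⟨u, w, huw⟩ := hcop
        have h2 : F = u • ((p : ℤ) • F) + w • (M • F) := by
          rw [smul_smul, smul_smul, ← add_smul, huw, one_smul]
        rw [h2]
        exact Submodule.add_mem _ (zsmul_mem hpF u) (zsmul_mem h1 w)
      rw [← map_monIdeal]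
      refine betti_eq p _ ?_ i (hNTgen i N (hndvd N (Or.inl rfl)) hN) ?_
      · intro g hg
        exact saturated ms h hp0 hg
      · rintro i' rfl
        exact hNTgen i' N' (hndvd N' (Or.inr rfl)) hN'
  refine ⟨hmain, ?_⟩
  obtain ⟨N, r, hN0, hr⟩ := hmain
  refine Set.Finite.subset (((Finset.range (N + 1)).image
    (fun p h => betti (monIdeal (ZMod p) ms ^ (h + 1)) i)).finite_toSet.union
      (Set.finite_singleton (fun h => r (h + 1)))) ?_
  rintro s ⟨p, hp, rfl⟩
  by_cases hpN : p ∣ N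
  · left
    rw [Finset.mem_coe, Finset.mem_image]
    exact ⟨p, Finset.mem_range.2 (Nat.lt_succ_of_le (Nat.le_of_dvd (Nat.pos_of_ne_zero hN0) hpN)),
      rfl⟩
  · right
    rw [Set.mem_singleton_iff]
    funext h
    exact hr p hp hpN (h + 1)

end Pool.Agent.Results.MP_f65b1b_al.AllPrimes
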